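import Pool.Agent.Q289.PAM.Window
import Pool.Agent.Q289.PAM.Pic

/-!
# The quenched Lyapunov exponent need not converge to `ρ γ` as `κ ↓ 0` or `κ → ∞`
-/

set_option autoImplicit false

open MeasureTheory Filter Topology Set

namespace Pool.Agent.Results.MP_e6ac48_pr.BothLimitsFail

/-- `u` is a solution of the parabolic Anderson equation `∂u/∂t = κ Δ u + γ ξ u` on `ℤ × [0,∞)`,
`u(·,0) = δ₀`, for a realization `ξ` of the field: the equation holds in integrated form, `u(x,·)`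
is continuous, and `u` is bounded on bounded time intervals. -/
structure IsSol (κ γ : ℝ) (ξ u : ℤ → ℝ → ℝ) : Prop where
  cont : ∀ x, ContinuousOn (u x) (Ici 0)
  bdd : ∀ T : ℝ, ∃ B : ℝ, ∀ x, ∀ t ∈ Icc 0 T, |u x t| ≤ B
  eqn : ∀ x, ∀ t, 0 ≤ t → u x t = (if x = 0 then 1 else 0) +
    ∫ s in (0 : ℝ)..t, (κ * (u (x + 1) s + u (x - 1) s - 2 * u x s) + γ * ξ x s * u x s)

/-- the space-time translation of a function on `ℤ × ℝ` -/
def translate (y : ℤ) (s : ℝ) (f : ℤ × ℝ → ℝ) : ℤ × ℝ → ℝ := fun p => f (p.1 + y, p.2 + s)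

section defs

variable {Ω : Type} [MeasurableSpace Ω]

/-- the law of the field, a probability measure on the space of functions on `ℤ × ℝ` with the
product σ-algebra -/
noncomputable def law (P : Measure Ω) (ξ : Ω → ℤ → ℝ → ℝ) : Measure (ℤ × ℝ → ℝ) :=
  P.map fun ω p => ξ ω p.1 p.2

/-- assumption (A1), in strong form: jointly measurable, stationary under translations in space
and time, ergodic under translations in time alone and under translations in space alone, not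
constant, and with a finite mean -/
structure A1 (P : Measure Ω) (ξ : Ω → ℤ → ℝ → ℝ) : Prop where
  meas : ∀ x, Measurable fun p : ℝ × Ω => ξ p.2 x p.1
  stationary : ∀ y s, (law P ξ).map (translate y s) = law P ξ
  ergodic_time : ∀ A : Set (ℤ × ℝ → ℝ), MeasurableSet A →
    (∀ s : ℝ, translate 0 s ⁻¹' A =ᵐ[law P ξ] A) → law P ξ A = 0 ∨ law P ξ A = 1
  ergodic_space : ∀ A : Set (ℤ × ℝ → ℝ), MeasurableSet A →
    (∀ y : ℤ, translate y 0 ⁻¹' A =ᵐ[law P ξ] A) → law P ξ A = 0 ∨ law P ξ A = 1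
  nonconstant : ¬ ∃ c : ℝ, ∀ᵐ ω ∂P, ξ ω 0 0 = c
  integrable : Integrable (fun ω => ξ ω 0 0) P

/-- assumption (A2): for all `κ, γ ≥ 0` there is `c` with `E log u(0,t) ≤ c t` for all `t ≥ 0` -/
def A2 (P : Measure Ω) (ξ : Ω → ℤ → ℝ → ℝ) : Prop :=
  ∀ κ γ : ℝ, 0 ≤ κ → 0 ≤ γ → ∃ c : ℝ, ∀ u : Ω → ℤ → ℝ → ℝ, (∀ ω, IsSol κ γ (ξ ω) (u ω)) →
    ∀ t : ℝ, 0 ≤ t → Integrable (fun ω => Real.log (u ω 0 t)) P ∧
      ∫ ω, Real.log (u ω 0 t) ∂P ≤ c * t

/-- `l` is the quenched Lyapunov exponent: almost surely `log u(0,t) / t → l` -/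
def IsLyapunov (P : Measure Ω) (ξ : Ω → ℤ → ℝ → ℝ) (κ γ l : ℝ) : Prop :=
  ∀ᵐ ω ∂P, ∀ u, IsSol κ γ (ξ ω) u → Tendsto (fun t => Real.log (u 0 t) / t) atTop (𝓝 l)

end defs

theorem IsSol.conv {κ γ : ℝ} {ξ u : ℤ → ℝ → ℝ} (h : IsSol κ γ ξ u) : Q289.PAM.IsSol κ γ ξ u :=
  ⟨h.cont, h.bdd, h.eqn⟩

theorem of_conv {κ γ : ℝ} {ξ u : ℤ → ℝ → ℝ} (h : Q289.PAM.IsSol κ γ ξ u) : IsSol κ γ ξ u :=
  ⟨h.cont, h.bdd, h.eqn⟩

/-- the elementary lower bound -/
theorem low {κ γ : ℝ} {ξ u : ℤ → ℝ → ℝ} (h : Q289.PAM.IsSol κ γ ξ u) (hκ : 0 ≤ κ) (hγ : 0 ≤ γ)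
    (hξm : ∀ x, Measurable (ξ x)) (hξ : ∀ x s, ξ x s ∈ Icc (0 : ℝ) 1) {t : ℝ} (ht : 0 ≤ t) :
    Real.exp (-(2 * κ) * t) ≤ u 0 t := by
  have hexp : ∀ s : ℝ, HasDerivAt (fun s => Real.exp (-(2 * κ) * s))
      (-(2 * κ) * Real.exp (-(2 * κ) * s)) s := by
    intro s
    have := ((hasDerivAt_id s).const_mul (-(2 * κ))).exp
    simp only [id, mul_one] at this
    exact this.congr_deriv (mul_comm _ _)
  have h1 := h.ge_of_sub hκ hγ hξm hξ le_rfl (s₁ := t)
    (v := fun x s => if x = 0 then Real.exp (-(2 * κ) * s) else 0)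
    (v' := fun x s => if x = 0 then -(2 * κ) * Real.exp (-(2 * κ) * s) else 0)
    (fun x s => ?_) (fun x => ?_) ⟨1, fun x s hs => ?_⟩ (fun x => ?_) (fun x s hs => ?_) 0 t
    ⟨ht, le_rfl⟩
  · simpa using h1
  · by_cases hx : x = 0
    · simp only [hx, if_true]; exact hexp s
    · simp only [hx, if_false]; exact hasDerivAt_const s 0
  · by_cases hx : x = 0
    · simp only [hx, if_true]; fun_prop
    · simp only [hx, if_false]; fun_prop
  · split_ifs
    · rw [abs_of_pos (Real.exp_pos _)]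
      apply Real.exp_le_one_iff.2
      have := hs.1
      nlinarith
    · norm_num
  · rw [h.zero, mul_zero, Real.exp_zero]
  · set E := Real.exp (-(2 * κ) * s) with hE
    have hE0 : 0 < E := Real.exp_pos _
    have hnn : ∀ y : ℤ, 0 ≤ (if y = 0 then E else (0 : ℝ)) := fun y => by split_ifs <;> positivity
    unfold Q289.PAM.rhs
    have h2 := hnn (x + 1)
    have h3 := hnn (x - 1)
    have h4 := hnn x
    have h5 := (hξ x s).1
    have h6 : 0 ≤ γ * ξ x s * (if x = 0 then E else (0 : ℝ)) := by positivity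
    have h7 : 0 ≤ κ * ((if x + 1 = 0 then E else (0 : ℝ)) + (if x - 1 = 0 then E else (0 : ℝ))) := by
      positivity
    by_cases hx : x = 0
    · simp only [hx, if_true] at h6 h7 ⊢
      nlinarith
    · simp only [hx, if_false] at h6 h7 ⊢
      nlinarith

open Q289.PAM in
theorem phi_meas (α : ℝ) : Measurable fun (ω : Om) (p : ℤ × ℝ) => fld α ω p.1 p.2 := by
  refine measurable_pi_iff.2 fun p => ?_
  have h : Measurable fun ω : Om => ((p.2, ω) : ℝ × Om) := measurable_prodMk_left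
  have h2 := (fld_meas α p.1).comp h
  change Measurable fun ω => fld α ω p.1 p.2
  exact h2

open Q289.PAM in
/-- There are a probability space and a random field `ξ` on `ℤ × ℝ` satisfying (A1) and (A2), with
values in `[0,1]` and mean `ρ < 1`, such that for every `κ ≥ 0`, `γ ≥ 0` and every realization the
equation has exactly one solution (bounded on bounded time intervals), and for every `γ > 0` the
quenched Lyapunov exponent equals `γ` for every `κ > 0`.  Hence it converges to `ρ γ` neither as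
`κ ↓ 0` nor as `κ → ∞`. -/
theorem result : ∃ (Ω : Type) (_ : MeasurableSpace Ω) (P : Measure Ω) (_ : IsProbabilityMeasure P)
    (ξ : Ω → ℤ → ℝ → ℝ),
    A1 P ξ ∧ A2 P ξ ∧ (∀ ω x t, ξ ω x t ∈ Icc (0 : ℝ) 1) ∧ (∫ ω, ξ ω 0 0 ∂P) < 1 ∧
    (∀ ω (κ γ : ℝ), 0 ≤ κ → 0 ≤ γ → ∃ u, IsSol κ γ (ξ ω) u ∧
      ∀ v, IsSol κ γ (ξ ω) v → ∀ x t, 0 ≤ t → v x t = u x t) ∧
    ∀ γ : ℝ, 0 < γ →
      (∀ κ : ℝ, 0 < κ → IsLyapunov P ξ κ γ γ) ∧
      ∀ lyap : ℝ → ℝ, (∀ κ : ℝ, 0 < κ → IsLyapunov P ξ κ γ (lyap κ)) →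
        ¬ Tendsto lyap (𝓝[>] 0) (𝓝 ((∫ ω, ξ ω 0 0 ∂P) * γ)) ∧
        ¬ Tendsto lyap atTop (𝓝 ((∫ ω, ξ ω 0 0 ∂P) * γ)) := by
  obtain ⟨α, hα0, hα1, hα⟩ := exists_trans
  have hfm := fld_meas α
  have hfm' : ∀ ω x, Measurable (fld α ω x) := fld_meas' α
  have hfI := fld_mem α
  -- the map to the field
  have hΦ : Measurable fun (ω : Om) (p : ℤ × ℝ) => fld α ω p.1 p.2 := phi_meas α
  have htr : ∀ y s, Measurable (translate y s) := fun y s =>
    measurable_pi_iff.2 fun p => measurable_pi_apply _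
  have hcomm : ∀ (y : ℤ) (s : ℝ) (ω : Om), translate y s (fun p => fld α ω p.1 p.2) =
      fun p => fld α (sh (st α y s) ω) p.1 p.2 := by
    intro y s ω
    funext p
    rw [fld_sh]
    rfl
  have herg : ∀ (C : Set Om), (∀ k : ℕ →₀ ℤ, k ≠ 0 → ∃ c ∈ C, chi k c ≠ 1) →
      ∀ A : Set (ℤ × ℝ → ℝ), MeasurableSet A →
      (∀ c ∈ C, ∃ y s, c = st α y s ∧ translate y s ⁻¹' A =ᵐ[law PT (fld α)] A) →
      law PT (fld α) A = 0 ∨ law PT (fld α) A = 1 := by
    intro C hC A hA hinv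
    unfold law at hinv ⊢
    rw [Measure.map_apply hΦ hA]
    refine ergodic_of hC (hΦ hA) fun c hc => ?_
    obtain ⟨y, s, rfl, h1⟩ := hinv c hc
    have h2 := ae_of_ae_map hΦ.aemeasurable h1
    filter_upwards [h2] with ω hω
    have h3 : (translate y s (fun p => fld α ω p.1 p.2) ∈ A) =
        ((fun p : ℤ × ℝ => fld α ω p.1 p.2) ∈ A) := hω
    rw [hcomm] at h3
    exact h3
  have hfld0 : ∀ ω, fld α ω 0 0 = Act.indicator (fun _ => (1 : ℝ)) ω := by
    intro ω
    unfold fld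
    congr 1
    funext n
    simp [sh, st]
  have hint : Integrable (fun ω => fld α ω 0 0) PT := by
    refine Integrable.of_bound (C := 1) ?_ ?_
    · simp only [hfld0]
      exact (measurable_const.indicator Act_meas).aestronglyMeasurable
    · refine Filter.Eventually.of_forall fun ω => ?_
      rw [Real.norm_eq_abs, abs_of_nonneg (hfI ω 0 0).1]
      exact (hfI ω 0 0).2
  have hmean : ∫ ω, fld α ω 0 0 ∂PT = PT.real Act := by
    simp only [hfld0]
    rw [integral_indicator Act_meas, setIntegral_const, smul_eq_mul, mul_one]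
  have hρ1 : PT.real Act ≤ 1 / 3 := by
    unfold Measure.real
    exact ENNReal.toReal_le_of_le_ofReal (by norm_num) prob_Act_le
  have hρ0 : 0 < PT.real Act := ENNReal.toReal_pos prob_Act_pos.ne' (measure_ne_top _ _)
  have hnc : ¬ ∃ c : ℝ, ∀ᵐ ω ∂PT, fld α ω 0 0 = c := by
    rintro ⟨c, hc⟩
    simp only [hfld0] at hc
    by_cases h1 : c = 1
    · have h2 : PT Act = 1 := by
        rw [← measure_univ (μ := PT)]
        apply measure_congr
        filter_upwards [hc] with ω hω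
        apply propext
        change (ω ∈ Act) ↔ True
        rw [iff_true]
        by_contra h3
        rw [indicator_of_notMem h3, h1] at hω
        norm_num at hω
      have h3 : PT.real Act = 1 := by unfold Measure.real; rw [h2, ENNReal.toReal_one]
      linarith
    · have h2 : PT Act = 0 := by
        rw [measure_eq_zero_iff_ae_notMem]
        filter_upwards [hc] with ω hω h3
        rw [indicator_of_mem h3] at hω
        exact h1 hω.symm
      exact prob_Act_pos.ne' h2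
  have hsol : ∀ ω (κ γ : ℝ), 0 ≤ κ → 0 ≤ γ →
      Q289.PAM.IsSol κ γ (fld α ω) (sol κ γ (fld α ω)) := fun ω κ γ hκ hγ =>
    sol_isSol hκ hγ (hfm' ω) (hfI ω)
  have huniq : ∀ ω (κ γ : ℝ), 0 ≤ κ → 0 ≤ γ → ∀ v, IsSol κ γ (fld α ω) v → ∀ x t, 0 ≤ t →
      v x t = sol κ γ (fld α ω) x t := by
    intro ω κ γ hκ hγ v hv x t ht
    exact le_antisymm
      ((hsol ω κ γ hκ hγ).le hv.conv hκ hγ (hfm' ω) (hfI ω) x ht)
      (hv.conv.le (hsol ω κ γ hκ hγ) hκ hγ (hfm' ω) (hfI ω) x ht)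
  have hlyap : ∀ γ : ℝ, 0 < γ → ∀ κ : ℝ, 0 < κ → IsLyapunov PT (fld α) κ γ γ := fun γ hγ κ hκ =>
    Filter.Eventually.of_forall fun ω u hu => lyapunov hα0 hα1 hκ hγ ω hu.conv
  refine ⟨Om, inferInstance, PT, inferInstance, fld α, ⟨hfm, ?_, ?_, ?_, hnc, hint⟩, ?_, hfI, ?_,
    ?_, ?_⟩
  · intro y s
    unfold law
    rw [Measure.map_map (htr y s) hΦ]
    have e1 : (translate y s ∘ fun (ω : Om) (p : ℤ × ℝ) => fld α ω p.1 p.2) =
        (fun (ω : Om) (p : ℤ × ℝ) => fld α ω p.1 p.2) ∘ sh (st α y s) := by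
      funext ω
      exact hcomm y s ω
    rw [e1, ← Measure.map_map hΦ (sh_meas _), (sh_mp _).map_eq]
  · intro A hA hinv
    refine herg (range fun t : ℝ => st α 0 t) (time_sep hα) A hA ?_
    rintro _ ⟨t, rfl⟩
    exact ⟨0, t, rfl, hinv t⟩
  · intro A hA hinv
    refine herg (range fun x : ℤ => st α x 0) (space_sep hα) A hA ?_
    rintro _ ⟨x, rfl⟩
    exact ⟨x, 0, rfl, hinv x⟩
  · intro κ γ hκ hγ
    refine ⟨γ, fun u hu t ht => ?_⟩
    have e1 : (fun ω => Real.log (u ω 0 t)) = fun ω => Real.log (sol κ γ (fld α ω) 0 t) := by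
      funext ω
      rw [huniq ω κ γ hκ hγ (u ω) (hu ω) 0 t ht]
    have hm : Measurable fun ω => Real.log (sol κ γ (fld α ω) 0 t) :=
      (sol_meas hfm hfI 0 t).log
    have hub : ∀ ω, Real.log (sol κ γ (fld α ω) 0 t) ≤ γ * t := by
      intro ω
      have h1 := (hsol ω κ γ hκ hγ).le_exp hκ hγ (hfm' ω) (hfI ω) 0 ht
      have h2 := low (hsol ω κ γ hκ hγ) hκ hγ (hfm' ω) (hfI ω) ht
      rw [← Real.log_exp (γ * t)]
      exact Real.log_le_log ((Real.exp_pos _).trans_le h2) h1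
    have hlb : ∀ ω, -(2 * κ) * t ≤ Real.log (sol κ γ (fld α ω) 0 t) := by
      intro ω
      have h2 := low (hsol ω κ γ hκ hγ) hκ hγ (hfm' ω) (hfI ω) ht
      rw [← Real.log_exp (-(2 * κ) * t)]
      exact Real.log_le_log (Real.exp_pos _) h2
    have hi : Integrable (fun ω => Real.log (sol κ γ (fld α ω) 0 t)) PT := by
      refine Integrable.of_bound (C := γ * t + 2 * κ * t) hm.aestronglyMeasurable ?_
      refine Filter.Eventually.of_forall fun ω => ?_
      rw [Real.norm_eq_abs, abs_le]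
      have h1 := hub ω
      have h2 := hlb ω
      have h3 : 0 ≤ γ * t := by positivity
      have h4 : 0 ≤ 2 * κ * t := by positivity
      constructor <;> nlinarith
    rw [e1]
    refine ⟨hi, ?_⟩
    calc ∫ ω, Real.log (sol κ γ (fld α ω) 0 t) ∂PT ≤ ∫ _ω, γ * t ∂PT :=
          integral_mono hi (integrable_const _) hub
      _ = γ * t := by simp
  · rw [hmean]; linarith
  · intro ω κ γ hκ hγ
    exact ⟨sol κ γ (fld α ω), of_conv (hsol ω κ γ hκ hγ), huniq ω κ γ hκ hγ⟩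
  · intro γ hγ
    refine ⟨hlyap γ hγ, fun lyap hl => ?_⟩
    have heq : ∀ κ : ℝ, 0 < κ → lyap κ = γ := by
      intro κ hκ
      obtain ⟨ω, hω⟩ := (hl κ hκ).exists
      have hs := of_conv (hsol ω κ γ hκ.le hγ.le)
      exact tendsto_nhds_unique (hω _ hs) (lyapunov hα0 hα1 hκ hγ ω hs.conv)
    have hne : (∫ ω, fld α ω 0 0 ∂PT) * γ ≠ γ := by
      rw [hmean]
      intro h
      have : PT.real Act * γ < 1 * γ := mul_lt_mul_of_pos_right (by linarith) hγ
      linarith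
    constructor
    · intro h
      have h2 : Tendsto lyap (𝓝[>] 0) (𝓝 γ) := by
        refine tendsto_const_nhds.congr' ?_
        filter_upwards [self_mem_nhdsWithin] with κ hκ
        exact (heq κ hκ).symm
      exact hne (tendsto_nhds_unique h h2)
    · intro h
      have h2 : Tendsto lyap atTop (𝓝 γ) := by
        refine tendsto_const_nhds.congr' ?_
        filter_upwards [eventually_gt_atTop 0] with κ hκ
        exact (heq κ hκ).symm
      exact hne (tendsto_nhds_unique h h2)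

end Pool.Agent.Results.MP_e6ac48_pr.BothLimitsFail
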